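import Mathlib
import Pool.Agent.H.MP_035d7c_an.A

namespace Pool.Agent.Results.MP_b48a23_an.No

open Filter Topology Finset Pool.Agent.H.MP_035d7c_an
open scoped ENNReal NNReal

theorem abs_sg (b : Bool) : |sg b| = 1 := by cases b <;> simp [sg]

theorem greedy (y : ℕ → ℝ) (f b : ℝ) (hf : 0 ≤ f) (h1 : ∀ i, 0 ≤ y i ∧ y i ≤ b)
    (h2 : ∀ i, y i ≤ f + ∑ l ∈ range i, y l) (m : ℕ) (t : ℝ) (h3 : |t| ≤ b)
    (h4 : |t| ≤ f + ∑ l ∈ range m, y l) : ∃ s : ℕ → Bool,
      |t - ∑ l ∈ range m, sg (s l) * y l| ≤ f ∧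
        ∀ i ≤ m, |∑ l ∈ range i, sg (s l) * y l| ≤ b + f := by
  induction m generalizing t with
  | zero =>
    refine ⟨fun _ => true, by simpa using h4, fun i hi => ?_⟩
    rw [Nat.le_zero.1 hi]
    simp only [range_zero, sum_empty, abs_zero]
    linarith [abs_nonneg t]
  | succ m ih =>
    rw [sum_range_succ] at h4
    obtain ⟨β, h5, h6⟩ : ∃ β, |t - sg β * y m| ≤ b ∧ |t - sg β * y m| ≤ f + ∑ l ∈ range m, y l := by
      have := h1 m
      have := h2 m
      rw [abs_le] at h3 h4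
      rcases le_total 0 t with h | h
      · refine ⟨true, ?_, ?_⟩ <;> simp only [sg, if_true, abs_le] <;> constructor <;> linarith
      · refine ⟨false, ?_, ?_⟩ <;> simp only [sg, Bool.false_eq_true, if_false, abs_le] <;>
          constructor <;> linarith
    obtain ⟨s, h7, h8⟩ := ih _ h5 h6
    have h9 : ∀ i ≤ m, ∑ l ∈ range i, sg (Function.update s m β l) * y l =
        ∑ l ∈ range i, sg (s l) * y l := fun i hi => sum_congr rfl fun l hl => by
      rw [Function.update_of_ne (by have := mem_range.1 hl; omega)]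
    have h10 : |t - ∑ l ∈ range (m + 1), sg (Function.update s m β l) * y l| ≤ f := by
      rw [sum_range_succ, h9 m le_rfl, Function.update_self]
      convert h7 using 2
      ring
    refine ⟨Function.update s m β, h10, fun i hi => ?_⟩
    rcases hi.eq_or_lt with rfl | hi
    · rw [abs_le] at *
      constructor <;> linarith [h10.1, h10.2, h3.1, h3.2]
    · rw [h9 i (by omega)]
      exact h8 i (by omega)

/-- indicator of the plus sign -/
def zg (b : Bool) : ℤ := if b then 1 else 0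

theorem uniq (K : ℕ) : ∀ (g g' : ℕ → Bool) (m : ℕ), K ≤ m →
    ∑ l ∈ range m, (zg (g l) - zg (g' l)) * 2 ^ min l K = 0 → ∀ i < K, g i = g' i := by
  induction K with
  | zero => simp
  | succ K ih =>
    intro g g' m hm h
    obtain ⟨m, rfl⟩ : ∃ m', m = m' + 1 := ⟨m - 1, by omega⟩
    simp only [sum_range_succ', Nat.succ_min_succ, pow_succ, ← mul_assoc, ← sum_mul, Nat.zero_min,
      pow_zero, mul_one] at h
    have h1 : g 0 = g' 0 := by
      by_contra h1
      generalize ∑ l ∈ range m, (zg (g (l + 1)) - zg (g' (l + 1))) * 2 ^ min l K = W at h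
      cases h2 : g 0 <;> cases h3 : g' 0 <;> simp [zg, h2, h3] at h h1 <;> omega
    rw [h1, sub_self, add_zero] at h
    have h2 := ih (fun l => g (l + 1)) (fun l => g' (l + 1)) m (by omega) (by simpa using h)
    rintro (_ | i) hi
    exacts [h1, h2 i (by omega)]

/-- number of coarse binary terms of a stage -/
def K' (j N : ℕ) : ℕ := (j + 1) * (N + 2 * j)

/-- finest term of a stage -/
noncomputable def f' (j N : ℕ) : ℝ := (1 / 2) ^ j / 2 ^ (2 * j + K' j N)

/-- number of equal terms of a stage -/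
noncomputable def M' (j N : ℕ) (δ : ℝ) : ℕ := ⌈(4 * j + 4 * N) * 2 ^ j / δ⌉₊ + 1

/-- start index and slope of the stages -/
noncomputable def st : ℕ → ℕ × ℝ
  | 0 => (0, 1)
  | j + 1 => ((st j).1 + (2 * j + K' j (st j).1 + M' j (st j).1 (st j).2),
      (st j).2 * f' j (st j).1 * 2 ^ j / 2)

/-- start index -/
noncomputable def N (j : ℕ) : ℕ := (st j).1

/-- slope -/
noncomputable def δ (j : ℕ) : ℝ := (st j).2

/-- number of coarse terms -/
noncomputable def K (j : ℕ) : ℕ := K' j (N j)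

/-- finest term -/
noncomputable def f (j : ℕ) : ℝ := f' j (N j)

/-- number of equal terms -/
noncomputable def M (j : ℕ) : ℕ := M' j (N j) (δ j)

/-- length of the stage -/
noncomputable def len (j : ℕ) : ℕ := 2 * j + K j + M j

/-- terms of the stage -/
noncomputable def y (j l : ℕ) : ℝ := f j * 2 ^ min l (2 * j + K j)

theorem N_succ (j : ℕ) : N (j + 1) = N j + len j := rfl

theorem δ_succ (j : ℕ) : δ (j + 1) = δ j * f j * 2 ^ j / 2 := rfl

theorem f_pos (j : ℕ) : 0 < f j := by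
  simp only [f, f']
  positivity

theorem f_mul (j : ℕ) : f j * 2 ^ (2 * j + K j) = (1 / 2) ^ j := by
  simp only [f, f', K]
  field_simp

theorem y_le (j l : ℕ) : 0 ≤ y j l ∧ y j l ≤ (1 / 2) ^ j := by
  have := f_pos j
  refine ⟨by simp only [y]; positivity, ?_⟩
  rw [← f_mul, y]
  gcongr
  exacts [by norm_num, min_le_right _ _]

theorem f_le (j : ℕ) : f j ≤ (1 / 2) ^ j := by simpa [y] using (y_le j 0).2

theorem δ_pos (j : ℕ) : 0 < δ j := by
  induction j with
  | zero => exact one_pos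
  | succ j ih =>
    have := f_pos j
    rw [δ_succ]
    positivity

theorem δ_half (j : ℕ) : 2 * δ (j + 1) ≤ δ j := by
  have h1 : f j * 2 ^ j ≤ 1 := by
    calc _ ≤ (1 / 2) ^ j * (2 : ℝ) ^ j := by gcongr; exact f_le j
      _ = 1 := by rw [← mul_pow]; norm_num
  rw [δ_succ]
  nlinarith [δ_pos j]

theorem δ_le (j : ℕ) : δ j ≤ 1 := by
  induction j with
  | zero => exact le_rfl
  | succ j ih => linarith [δ_half j, δ_pos j]

theorem N_mono : StrictMono N := strictMono_nat_of_lt_succ fun j => by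
  simp only [N_succ, len, M, M']
  omega

theorem ex (n : ℕ) : ∃ j, n < N (j + 1) := ⟨n, N_mono.id_le (n + 1)⟩

/-- the stage containing an index -/
noncomputable def stage (n : ℕ) : ℕ := Nat.find (ex n)

theorem stage_spec (n : ℕ) : N (stage n) ≤ n ∧ n < N (stage n) + len (stage n) := by
  refine ⟨?_, Nat.find_spec (ex n)⟩
  rcases h : stage n with _ | j
  · exact Nat.zero_le _
  · exact not_lt.1 (Nat.find_min (ex n) (m := j) (by unfold stage at h; omega))

theorem stage_eq {j l : ℕ} (h : l < len j) : stage (N j + l) = j := by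
  refine (Nat.find_eq_iff _).2 ⟨by rw [N_succ]; omega, fun i hi => ?_⟩
  have := N_mono.monotone (Nat.succ_le_of_lt hi)
  simp only [Nat.succ_eq_add_one] at this
  omega

theorem stage_top : Tendsto stage atTop atTop := by
  refine tendsto_atTop.2 fun j => (eventually_ge_atTop (N j)).mono fun n hn => ?_
  have h := hn.trans_lt (stage_spec n).2
  rw [← N_succ] at h
  exact Nat.le_of_lt_succ (N_mono.lt_iff_lt.1 h)

/-- first coordinates -/
noncomputable def x (n : ℕ) : ℝ := y (stage n) (n - N (stage n))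

/-- the sequence -/
noncomputable def a (n : ℕ) : Fin 2 → ℝ := ![x n, δ (stage n) * x n]

/-- first coordinate of the partial sums -/
noncomputable def P (ε : ℕ → Bool) (n : ℕ) : ℝ := ∑ m ∈ range n, sg (ε m) * x m

/-- second coordinate of the partial sums -/
noncomputable def Q (ε : ℕ → Bool) (n : ℕ) : ℝ := ∑ m ∈ range n, sg (ε m) * (δ (stage m) * x m)

theorem mem_lev {L : Fin 2 → ℝ} {ε : Om} : ε ∈ lev a L ↔
    Tendsto (P ε) atTop (𝓝 (L 0)) ∧ Tendsto (Q ε) atTop (𝓝 (L 1)) := by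
  simp only [lev, Set.mem_ofPred_eq, tendsto_pi_nhds, Fin.forall_fin_two, Finset.sum_apply,
    Pi.smul_apply, smul_eq_mul]
  rfl

theorem PQ_add (ε : ℕ → Bool) (j : ℕ) {i : ℕ} (hi : i ≤ len j) :
    P ε (N j + i) = P ε (N j) + ∑ l ∈ range i, sg (ε (N j + l)) * y j l ∧
    Q ε (N j + i) = Q ε (N j) + δ j * ∑ l ∈ range i, sg (ε (N j + l)) * y j l := by
  simp only [P, Q, sum_range_add, mul_sum, add_right_inj]
  constructor <;> refine sum_congr rfl fun l hl => ?_ <;>
    simp only [x, stage_eq ((mem_range.1 hl).trans_le hi), Nat.add_sub_cancel_left]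
  ring

theorem x_le (n : ℕ) : |x n| ≤ (1 / 2) ^ stage n ∧ |δ (stage n) * x n| ≤ (1 / 2) ^ stage n := by
  have h1 := y_le (stage n) (n - N (stage n))
  have h2 := δ_pos (stage n)
  have h3 := δ_le (stage n)
  simp only [x, abs_mul, abs_of_nonneg h1.1, abs_of_pos h2]
  exact ⟨h1.2, by nlinarith [h1.1, h1.2]⟩

theorem PQ_le (ε : ℕ → Bool) (n : ℕ) : |P ε n| ≤ n ∧ |Q ε n| ≤ n := by
  have h : ∀ m, (1 / 2 : ℝ) ^ stage m ≤ 1 := fun m => pow_le_one₀ (by norm_num) (by norm_num)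
  constructor <;> refine (abs_sum_le_sum_abs _ _).trans ((sum_le_card_nsmul _ _ 1 fun m _ => ?_).trans
    (by simp)) <;> rw [abs_mul, abs_sg, one_mul]
  exacts [(x_le m).1.trans (h m), (x_le m).2.trans (h m)]

theorem half_top : Tendsto (fun n => (1 / 2 : ℝ) ^ stage n) atTop (𝓝 0) :=
  (tendsto_pow_atTop_nhds_zero_of_lt_one (by norm_num) (by norm_num)).comp stage_top

theorem a_zero : Tendsto a atTop (𝓝 0) := by
  refine tendsto_pi_nhds.2 (Fin.forall_fin_two.2 ⟨?_, ?_⟩)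
  exacts [squeeze_zero_norm (fun n => (x_le n).1) half_top,
    squeeze_zero_norm (fun n => (x_le n).2) half_top]

theorem block (j : ℕ) (t : ℝ) : ∃ s : ℕ → Bool, |t| * δ j ≤ 4 * j + 4 * N j →
    |t - ∑ l ∈ range (len j), sg (s l) * y j l| ≤ f j ∧
      ∀ i ≤ len j, |∑ l ∈ range i, sg (s l) * y j l| ≤ |t| + 2 * (1 / 2) ^ j := by
  by_cases h : |t| * δ j ≤ 4 * j + 4 * N j
  swap
  · exact ⟨fun _ => true, fun h' => absurd h' h⟩
  have hf := f_pos j
  have h0 : (0 : ℝ) < (1 / 2) ^ j := by positivity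
  have hA : ∀ i, y j i ≤ f j + ∑ l ∈ range i, y j l := fun i => by
    induction i with
    | zero => simp [y]
    | succ i ih =>
      have h3 : y j (i + 1) ≤ 2 * y j i := by
        simp only [y]
        rw [mul_left_comm, ← pow_succ']
        gcongr
        exacts [by norm_num, by omega]
      rw [sum_range_succ]
      linarith
  have hB : |t| ≤ f j + ∑ l ∈ range (len j), y j l := by
    have h3 : ∑ l ∈ range (M j), y j (2 * j + K j + l) = M j * (1 / 2) ^ j := by
      simp only [y, min_eq_right (Nat.le_add_right _ _), f_mul, sum_const, card_range, nsmul_eq_mul]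
    have h4 : 0 ≤ ∑ l ∈ range (2 * j + K j), y j l := sum_nonneg fun l _ => (y_le j l).1
    have h5 : (4 * j + 4 * N j) * 2 ^ j / δ j ≤ M j := by
      simp only [M, M']
      push_cast
      linarith [Nat.le_ceil ((4 * j + 4 * N j) * 2 ^ j / δ j)]
    have h6 : |t| ≤ M j * (1 / 2) ^ j := by
      rw [div_le_iff₀ (δ_pos j)] at h5
      rw [one_div, inv_pow, ← div_eq_mul_inv, le_div_iff₀ (by positivity)]
      refine le_of_mul_le_mul_right ?_ (δ_pos j)
      nlinarith [pow_pos (two_pos (α := ℝ)) j]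
    rw [len, sum_range_add, h3]
    linarith
  obtain ⟨s, h1, h2⟩ := greedy (y j) (f j) (|t| + (1 / 2) ^ j) hf.le
    (fun i => ⟨(y_le j i).1, by linarith [(y_le j i).2, abs_nonneg t]⟩) hA (len j) t
    (by linarith) hB
  exact ⟨s, fun _ => ⟨h1, fun i hi => by linarith [h2 i hi, f_le j]⟩⟩

/-- target of a stage -/
noncomputable def tg (j : ℕ) (p q : ℝ) : ℝ := (q - δ (j + 1) * p) / (δ j - δ (j + 1))

theorem abs_div_le (j : ℕ) {e c : ℝ} (h : |e| ≤ c * δ j) : |e / (δ j - δ (j + 1))| ≤ 2 * c := by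
  have h1 := δ_half j
  have h2 := δ_pos (j + 1)
  have h3 : 0 ≤ c := by
    by_contra h3
    nlinarith [abs_nonneg e, δ_pos j]
  rw [abs_div, abs_of_pos (by linarith : 0 < δ j - δ (j + 1)), div_le_iff₀ (by linarith)]
  nlinarith

theorem steer (L : Fin 2 → ℝ) : (lev a L).Nonempty := by
  choose B hB using block
  let R : ℕ → ℝ × ℝ := fun j => Nat.rec (L 0, L 1) (fun j r =>
    (r.1 - ∑ l ∈ range (len j), sg (B j (tg j r.1 r.2) l) * y j l,
      r.2 - δ j * ∑ l ∈ range (len j), sg (B j (tg j r.1 r.2) l) * y j l)) j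
  set t : ℕ → ℝ := fun j => tg j (R j).1 (R j).2 with ht
  set S : ℕ → ℕ → ℝ := fun j i => ∑ l ∈ range i, sg (B j (t j) l) * y j l with hS
  have hR : ∀ j, (R (j + 1)).1 = (R j).1 - S j (len j) ∧
      (R (j + 1)).2 = (R j).2 - δ j * S j (len j) := fun j => ⟨rfl, rfl⟩
  set ε : ℕ → Bool := fun n => B (stage n) (t (stage n)) (n - N (stage n)) with hε
  have h1 : ∀ j, ∀ i ≤ len j, P ε (N j + i) = P ε (N j) + S j i ∧
      Q ε (N j + i) = Q ε (N j) + δ j * S j i := fun j i hi => by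
    have : ∑ l ∈ range i, sg (ε (N j + l)) * y j l = S j i := sum_congr rfl fun l hl => by
      simp only [hε, stage_eq ((mem_range.1 hl).trans_le hi), Nat.add_sub_cancel_left]
    rw [← this]
    exact PQ_add ε j hi
  have h2 : ∀ j, (R j).1 = L 0 - P ε (N j) ∧ (R j).2 = L 1 - Q ε (N j) := fun j => by
    induction j with
    | zero => simp [R, P, Q, N, st]
    | succ j ih =>
      rw [(hR j).1, (hR j).2, N_succ, (h1 j _ le_rfl).1, (h1 j _ le_rfl).2, ih.1, ih.2]
      constructor <;> ring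
  obtain ⟨j0, hj0⟩ := exists_nat_ge (|L 0| + |L 1|)
  have hd : ∀ j, 0 < δ j - δ (j + 1) := fun j => by linarith [δ_half j, δ_pos (j + 1)]
  have h3 : ∀ j, j0 ≤ j → |t j| * δ j ≤ 4 * j + 4 * N j := fun j hj => by
    have h4 : (j0 : ℝ) ≤ j := by exact_mod_cast hj
    have h5 : |(R j).1| ≤ |L 0| + N j := by
      rw [(h2 j).1]
      linarith [abs_sub (L 0) (P ε (N j)), (PQ_le ε (N j)).1]
    have h6 : |(R j).2| ≤ |L 1| + N j := by
      rw [(h2 j).2]
      linarith [abs_sub (L 1) (Q ε (N j)), (PQ_le ε (N j)).2]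
    have h7 : |(R j).2 - δ (j + 1) * (R j).1| ≤ (j + 2 * N j) / δ j * δ j := by
      rw [div_mul_cancel₀ _ (δ_pos j).ne']
      refine (abs_sub _ _).trans ?_
      rw [abs_mul, abs_of_pos (δ_pos _)]
      nlinarith [δ_le (j + 1), abs_nonneg (R j).1, δ_pos (j + 1)]
    have h8 := mul_le_mul_of_nonneg_right (abs_div_le j h7) (δ_pos j).le
    rw [mul_assoc, div_mul_cancel₀ _ (δ_pos j).ne'] at h8
    have h9 : (0 : ℝ) ≤ j := j.cast_nonneg
    simp only [ht, tg]
    linarith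
  have h4 : ∀ j, j0 ≤ j → |(R (j + 1)).2 - δ (j + 1) * (R (j + 1)).1| ≤
      2 * (1 / 2) ^ j * δ (j + 1) := fun j hj => by
    have h5 := (hB j _ (h3 j hj)).1
    have h6 : (R (j + 1)).2 - δ (j + 1) * (R (j + 1)).1 =
        (δ j - δ (j + 1)) * (t j - S j (len j)) := by
      rw [(hR j).1, (hR j).2, mul_sub _ (t j)]
      simp only [ht, tg]
      rw [mul_div_cancel₀ _ (hd j).ne']
      ring
    have h7 : 2 * (1 / 2) ^ j * δ (j + 1) = δ j * f j := by
      rw [δ_succ, one_div, inv_pow]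
      field_simp
    rw [h6, h7, abs_mul, abs_of_pos (hd j)]
    exact mul_le_mul (by linarith [δ_pos (j + 1)]) h5 (abs_nonneg _) (δ_pos j).le
  have h5 : ∀ j, t j = (R j).1 + ((R j).2 - δ j * (R j).1) / (δ j - δ (j + 1)) := fun j => by
    have := (hd j).ne'
    simp only [ht, tg]
    field_simp
    ring
  have hh : ∀ j, (1 / 2 : ℝ) ^ (j + 1) = (1 / 2) ^ j / 2 ∧ (0 : ℝ) < (1 / 2) ^ j := fun j =>
    ⟨by ring, by positivity⟩
  have h6 : ∀ j, j0 ≤ j → |(R (j + 2)).1| ≤ 5 * (1 / 2) ^ j := fun j hj => by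
    have h7 := (hB _ _ (h3 (j + 1) (by omega))).1
    have h8 := abs_div_le _ (h4 j hj)
    have h9 := h5 (j + 1)
    have h10 := f_le (j + 1)
    rw [(hR (j + 1)).1]
    change |t (j + 1) - S (j + 1) (len (j + 1))| ≤ _ at h7
    rw [abs_le] at *
    constructor <;> linarith [h7.1, h7.2, h8.1, h8.2, (hh j).1, (hh j).2]
  have h7 : ∀ n, j0 + 2 ≤ stage n → |P ε n - L 0| ≤ 60 * (1 / 2) ^ stage n ∧
      |Q ε n - L 1| ≤ 60 * (1 / 2) ^ stage n := fun n hn => by
    obtain ⟨j, hj⟩ : ∃ j, stage n = j + 2 := ⟨stage n - 2, by omega⟩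
    obtain ⟨h8, h9⟩ := stage_spec n
    rw [hj] at h8 h9 hn ⊢
    obtain ⟨i, rfl⟩ := Nat.exists_eq_add_of_le h8
    have h10 := h6 j (by omega)
    have h11 := h4 (j + 1) (by omega)
    have h12 := abs_div_le _ h11
    have h13 : |S (j + 2) i| ≤ _ := (hB _ _ (h3 (j + 2) (by omega))).2 i (by omega)
    have h14 : |t (j + 2)| ≤ 7 * (1 / 2) ^ j := by
      rw [h5]
      linarith [abs_add_le (R (j + 2)).1 (((R (j + 2)).2 - δ (j + 2) * (R (j + 2)).1) /
        (δ (j + 2) - δ (j + 2 + 1))), (hh j).1]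
    have h15 : |S (j + 2) i| ≤ 8 * (1 / 2) ^ j := by
      linarith [(hh j).1, (hh (j + 1)).1, (hh j).2]
    have h16 := δ_pos (j + 2)
    have h17 := δ_le (j + 2)
    have h18 : |δ (j + 2) * S (j + 2) i| ≤ 8 * (1 / 2) ^ j := by
      rw [abs_mul, abs_of_pos h16]
      nlinarith [abs_nonneg (S (j + 2) i)]
    have h19 : |δ (j + 2) * (R (j + 2)).1| ≤ 5 * (1 / 2) ^ j := by
      rw [abs_mul, abs_of_pos h16]
      nlinarith [abs_nonneg (R (j + 2)).1]
    have h20 : 2 * (1 / 2) ^ (j + 1) * δ (j + 1 + 1) ≤ (1 / 2 : ℝ) ^ j := by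
      nlinarith [(hh j).1, (hh j).2]
    rw [(h1 _ i (by omega)).1, (h1 _ i (by omega)).2]
    have h21 := h2 (j + 2)
    have h22 := (hh j).1
    have h23 := (hh (j + 1)).1
    have h24 := (hh j).2
    rw [abs_le] at h10 h11 h15 h18 h19
    simp only [abs_le]
    refine ⟨⟨?_, ?_⟩, ?_, ?_⟩ <;>
      linarith [h10.1, h10.2, h11.1, h11.2, h15.1, h15.2, h18.1, h18.2, h19.1, h19.2, h21.1, h21.2]
  have h8 : Tendsto (fun n => 60 * (1 / 2 : ℝ) ^ stage n) atTop (𝓝 0) := by
    simpa using half_top.const_mul 60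
  have h9 := stage_top.eventually (eventually_ge_atTop (j0 + 2))
  exact ⟨ε, mem_lev.2 ⟨tendsto_sub_nhds_zero_iff.1
    (squeeze_zero_norm' (h9.mono fun n hn => (h7 n hn).1) h8), tendsto_sub_nhds_zero_iff.1
    (squeeze_zero_norm' (h9.mono fun n hn => (h7 n hn).2) h8)⟩⟩

/-- the defect at the start of a stage -/
noncomputable def e (L : Fin 2 → ℝ) (ε : ℕ → Bool) (j : ℕ) : ℝ :=
  L 1 - Q ε (N j) - δ j * (L 0 - P ε (N j))

theorem e_succ (L : Fin 2 → ℝ) (ε : ℕ → Bool) (j : ℕ) :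
    e L ε (j + 1) = e L ε j + (δ j - δ (j + 1)) * (L 0 - P ε (N (j + 1))) := by
  simp only [e, N_succ, (PQ_add ε j le_rfl).1, (PQ_add ε j le_rfl).2]
  ring

theorem e_le {L : Fin 2 → ℝ} {ε : Om} (h : ε ∈ lev a L) {B : ℝ} (hB : ∀ n, |L 0 - P ε n| ≤ B)
    (j : ℕ) : |e L ε j| ≤ B * δ j := by
  obtain ⟨h1, h2⟩ := mem_lev.1 h
  have hB0 : 0 ≤ B := (abs_nonneg _).trans (hB 0)
  have h3 : ∀ m, |e L ε j - e L ε (j + m)| ≤ B * (δ j - δ (j + m)) := fun m => by
    induction m with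
    | zero => simp
    | succ m ih =>
      have h4 : 0 ≤ δ (j + m) - δ (j + m + 1) := by linarith [δ_half (j + m), δ_pos (j + m + 1)]
      have h5 := mul_le_mul_of_nonneg_left (hB (N (j + m + 1))) h4
      rw [← add_assoc, e_succ, ← sub_sub]
      refine (abs_sub _ _).trans ?_
      rw [abs_mul, abs_of_nonneg h4]
      linarith
  have hN : Tendsto (fun m => N (j + m)) atTop atTop :=
    N_mono.tendsto_atTop.comp (tendsto_atTop_mono (f := id) (fun m => Nat.le_add_left m j) tendsto_id)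
  have h4 : Tendsto (fun m => δ (j + m) * (L 0 - P ε (N (j + m)))) atTop (𝓝 0) := by
    refine squeeze_zero_norm (fun m => ?_) (by simpa using ((h1.comp hN).const_sub (L 0)).abs)
    rw [Real.norm_eq_abs, abs_mul, abs_of_pos (δ_pos _)]
    exact mul_le_of_le_one_left (abs_nonneg _) (δ_le _)
  have h5 : Tendsto (fun m => |e L ε j - e L ε (j + m)|) atTop (𝓝 |e L ε j|) := by
    simpa [e] using ((((h2.comp hN).const_sub (L 1)).sub h4).const_sub (e L ε j)).abs
  exact le_of_tendsto' h5 fun m => (h3 m).trans (by nlinarith [δ_pos (j + m)])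

theorem rigid {L : Fin 2 → ℝ} {B : ℕ} {ε η : Om} (h1 : ε ∈ lev a L) (h2 : η ∈ lev a L)
    (h3 : ∀ n, |L 0 - P ε n| ≤ B) (h4 : ∀ n, |L 0 - P η n| ≤ B) {j : ℕ} (hj : B < j)
    (h : ∀ i < N j + 2 * j, ε i = η i) : ∀ i < N j + 2 * j + K j, ε i = η i := by
  have hf := f_pos j
  have h5 : P ε (N j) = P η (N j) ∧ Q ε (N j) = Q η (N j) := by
    constructor <;> exact sum_congr rfl fun l hl => by rw [h l (by have := mem_range.1 hl; omega)]
  have h6 : e L ε j = e L η j := by simp only [e, h5.1, h5.2]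
  set Z : ℤ := ∑ l ∈ range (K j + M j),
    (zg (ε (N j + (2 * j + l))) - zg (η (N j + (2 * j + l)))) * 2 ^ min l (K j) with hZ
  have hz : ∀ b b', sg b - sg b' = 2 * ((zg b : ℝ) - zg b') := fun b b' => by
    cases b <;> cases b' <;> norm_num [sg, zg]
  have h7 : P ε (N (j + 1)) - P η (N (j + 1)) = 2 * f j * 2 ^ (2 * j) * Z := by
    rw [N_succ, (PQ_add ε j le_rfl).1, (PQ_add η j le_rfl).1, h5.1, add_sub_add_left_eq_sub,
      ← sum_sub_distrib, len, add_assoc, sum_range_add, sum_eq_zero fun l hl => by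
        rw [h _ (by have := mem_range.1 hl; omega), sub_self], zero_add, hZ]
    push_cast
    rw [mul_sum]
    refine sum_congr rfl fun l _ => ?_
    rw [← sub_mul, hz, y, min_add_add_left, pow_add]
    ring
  have h8 : e L η (j + 1) - e L ε (j + 1) = (δ j - δ (j + 1)) * (2 * f j * 2 ^ (2 * j) * Z) := by
    rw [e_succ, e_succ, h6, ← h7]
    ring
  have h9 : |e L η (j + 1) - e L ε (j + 1)| ≤ B * f j * 2 ^ j * δ j := by
    have := δ_succ j
    have h10 := e_le h1 h3 (j + 1)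
    have h11 := e_le h2 h4 (j + 1)
    rw [this] at h10 h11
    linarith [abs_sub (e L η (j + 1)) (e L ε (j + 1))]
  have h10 := abs_div_le j h9
  rw [h8, mul_div_cancel_left₀ _ (by linarith [δ_half j, δ_pos (j + 1)]), abs_mul,
    abs_of_pos (by positivity), two_mul j, pow_add] at h10
  have h11 : (B : ℝ) < 2 ^ j := by exact_mod_cast hj.trans Nat.lt_two_pow_self
  have h12 : |(Z : ℝ)| < 1 := by
    by_contra h12
    have h13 : 0 < f j * 2 ^ j := by positivity
    nlinarith [mul_le_mul_of_nonneg_left (not_lt.1 h12) (by positivity : 0 ≤ f j * 2 ^ j * 2 ^ j)]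
  have h13 : Z = 0 := Int.abs_lt_one_iff.1 (by exact_mod_cast h12)
  have h14 := uniq (K j) (fun l => ε (N j + (2 * j + l))) (fun l => η (N j + (2 * j + l))) _
    (Nat.le_add_right _ _) h13
  intro i hi
  by_cases h15 : i < N j + 2 * j
  · exact h i h15
  · have := h14 (i - (N j + 2 * j)) (by omega)
    rwa [show N j + (2 * j + (i - (N j + 2 * j))) = i by omega] at this

theorem dim_zero (L : Fin 2 → ℝ) : dimH (lev a L) = 0 := by
  have h1 : lev a L ⊆ ⋃ B : ℕ, {ε ∈ lev a L | ∀ n, |L 0 - P ε n| ≤ B} := fun ε hε => by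
    obtain ⟨C, hC⟩ := (((mem_lev.1 hε).1.const_sub (L 0)).abs).bddAbove_range
    obtain ⟨B, hB⟩ := exists_nat_ge C
    exact Set.mem_iUnion.2 ⟨B, hε, fun n => (hC ⟨n, rfl⟩).trans hB⟩
  refine nonpos_iff_eq_zero.1 ((dimH_mono h1).trans ?_)
  rw [dimH_iUnion]
  refine iSup_le fun B => ENNReal.le_of_forall_pos_le_add fun s hs _ => ?_
  rw [zero_add]
  refine dimH_le_of_cover _ s (fun j => N j + 2 * j) (fun j => N j + 2 * j + K j)
    (tendsto_atTop_mono (f := id) (fun j => by simp only [id]; omega) tendsto_id) ?_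
  obtain ⟨m, hm⟩ := exists_nat_ge (1 / s : ℝ)
  filter_upwards [eventually_gt_atTop B, eventually_ge_atTop m] with j hj hj'
  refine ⟨?_, fun ε hε η hη => rigid hε.1 hη.1 hε.2 hη.2 hj⟩
  have h2 : (0 : ℝ) < s := hs
  have h3 : (m : ℝ) ≤ j := by exact_mod_cast hj'
  rw [div_le_iff₀ h2] at hm
  have h4 : (1 : ℝ) ≤ s * (j + 2) := by nlinarith
  have h5 : (0 : ℝ) ≤ N j + 2 * j := by positivity
  simp only [K, K']
  push_cast
  nlinarith

theorem result : ∃ a : ℕ → Fin 2 → ℝ, Tendsto a atTop (𝓝 0) ∧ (∀ L, (lev a L).Nonempty) ∧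
    ∀ L, dimH (lev a L) = 0 :=
  ⟨a, a_zero, steer, dim_zero⟩

end Pool.Agent.Results.MP_b48a23_an.No
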